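import Pool.Agent.Helper65.EP.Stm3

/-! PACKAGE X3: capture of the orbits by trap discs near a parabolic point with `q` petals. -/

set_option autoImplicit false
set_option maxHeartbeats 1000000

open Topology Filter Metric Set

namespace Pool.Agent.Helper65.EP

namespace PX3

/-- reaching a set by means of a potential function -/
lemma reach {α : Type} (g : α → α) (P Q : α → Prop) (φ : α → ℝ) (b d : ℝ) (hd : 0 < d)
    (hb : ∀ x, P x → ¬ Q x → φ x ≤ b)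
    (hs : ∀ x, P x → ¬ Q x → P (g x) ∧ φ x + d ≤ φ (g x)) (x : α) (hx : P x) :
    ∃ n, (∀ j ≤ n, P (g^[j] x)) ∧ Q (g^[n] x) := by
  have key : ∀ (k : ℕ) (x : α), P x → b - φ x < k * d →
      ∃ n, (∀ j ≤ n, P (g^[j] x)) ∧ Q (g^[n] x) := by
    intro k
    induction k with
    | zero =>
      intro x hx h
      by_cases hq : Q x
      · exact ⟨0, fun j hj => by simpa [Nat.le_zero.mp hj] using hx, hq⟩
      · have := hb x hx hq
        simp at h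
        linarith
    | succ k ih =>
      intro x hx h
      by_cases hq : Q x
      · exact ⟨0, fun j hj => by simpa [Nat.le_zero.mp hj] using hx, hq⟩
      · obtain ⟨h1, h2⟩ := hs x hx hq
        obtain ⟨n, h3, h4⟩ := ih (g x) h1 (by push_cast at h; nlinarith)
        refine ⟨n + 1, fun j hj => ?_, by simpa using h4⟩
        rcases j with _ | j
        · simpa using hx
        · simpa using h3 j (by omega)
  obtain ⟨k, hk⟩ := exists_nat_gt ((b - φ x) / d)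
  exact key k x hx (by rwa [div_lt_iff₀ hd] at hk)

/-- a disc is a trap -/
lemma trap_of {g : ℂ → ℂ} {c : ℂ} {ρ x : ℝ} (hρ : 0 < ρ) (hx0 : 0 < x) (hx1 : x < 1)
    (h : ∀ y, ‖y - c‖ ≤ ρ → ‖g y - c‖ ≤ (1 - x) * ‖y - c‖ + x * ρ / 16) :
    (∀ y, ‖y - c‖ ≤ ρ → ‖g y - c‖ < ρ) ∧ ∃ m : ℕ, ∀ y, ‖y - c‖ ≤ ρ → ‖g^[m] y - c‖ < ρ / 8 := by
  have h1 : ∀ y, ‖y - c‖ ≤ ρ → ‖g y - c‖ < ρ := by
    intro y hy
    have := h y hy
    nlinarith [mul_pos hx0 hρ]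
  refine ⟨h1, ?_⟩
  have h2 : ∀ (m : ℕ) (y : ℂ), ‖y - c‖ ≤ ρ →
      ‖g^[m] y - c‖ ≤ ρ ∧ ‖g^[m] y - c‖ ≤ (1 - x) ^ m * ρ + ρ / 16 := by
    intro m
    induction m with
    | zero =>
      intro y hy
      refine ⟨by simpa using hy, ?_⟩
      simp only [Function.iterate_zero, id_eq, pow_zero, one_mul]
      linarith
    | succ m ih =>
      intro y hy
      obtain ⟨h3, h4⟩ := ih y hy
      rw [Function.iterate_succ_apply']
      refine ⟨(h1 _ h3).le, (h _ h3).trans ?_⟩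
      have : (1 - x) * ‖g^[m] y - c‖ ≤ (1 - x) * ((1 - x) ^ m * ρ + ρ / 16) :=
        mul_le_mul_of_nonneg_left h4 (by linarith)
      calc _ ≤ (1 - x) * ((1 - x) ^ m * ρ + ρ / 16) + x * ρ / 16 := by linarith
        _ = _ := by ring
  obtain ⟨m, hm⟩ := exists_pow_lt_of_lt_one (show (0 : ℝ) < 1 / 16 by norm_num)
    (show 1 - x < 1 by linarith)
  refine ⟨m, fun y hy => (h2 m y hy).2.trans_lt ?_⟩
  nlinarith

/-- the coordinate at infinity -/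
noncomputable def Wf (q : ℕ) (C : ℂ) (y : ℂ) : ℂ := -(q * C * y ^ q)⁻¹

lemma norm_Wf (q : ℕ) (C y : ℂ) : ‖Wf q C y‖ = ((q : ℝ) * ‖C‖ * ‖y‖ ^ q)⁻¹ := by
  simp [Wf]

lemma Wf_large {q : ℕ} (hq : 1 ≤ q) {C : ℂ} (hC : C ≠ 0) {r : ℝ} (hr : 0 < r) :
    ∃ R : ℝ, 0 < R ∧ ∀ y : ℂ, y ≠ 0 → R ≤ ‖Wf q C y‖ → ‖y‖ ≤ r := by
  have hq' : (0 : ℝ) < q := by exact_mod_cast hq
  have hC' : 0 < ‖C‖ := norm_pos_iff.mpr hC
  refine ⟨((q : ℝ) * ‖C‖ * r ^ q)⁻¹, by positivity, fun y hy h => ?_⟩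
  rw [norm_Wf] at h
  have hy' : 0 < ‖y‖ := norm_pos_iff.mpr hy
  have h1 := (inv_le_inv₀ (by positivity) (by positivity)).mp h
  have h2 : ‖y‖ ^ q ≤ r ^ q := le_of_mul_le_mul_left h1 (by positivity)
  exact (pow_le_pow_iff_left₀ hy'.le hr.le (by omega)).mp h2

lemma Wf_small {q : ℕ} (hq : 1 ≤ q) {C : ℂ} (hC : C ≠ 0) {R : ℝ} (hR : 0 < R) :
    ∃ r : ℝ, 0 < r ∧ ∀ y : ℂ, y ≠ 0 → ‖y‖ ≤ r → R ≤ ‖Wf q C y‖ := by
  have hq' : (0 : ℝ) < q := by exact_mod_cast hq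
  have hC' : 0 < ‖C‖ := norm_pos_iff.mpr hC
  refine ⟨min 1 (R⁻¹ / (q * ‖C‖)), by positivity, fun y hy h => ?_⟩
  have hy' : 0 < ‖y‖ := norm_pos_iff.mpr hy
  rw [norm_Wf]
  rw [le_inv_comm₀ hR (by positivity)]
  have h1 : ‖y‖ ^ q ≤ ‖y‖ := pow_le_of_le_one hy'.le (h.trans (min_le_left _ _)) (by omega)
  have h2 : ‖y‖ ≤ R⁻¹ / (q * ‖C‖) := h.trans (min_le_right _ _)
  calc (q : ℝ) * ‖C‖ * ‖y‖ ^ q ≤ q * ‖C‖ * (R⁻¹ / (q * ‖C‖)) := by
        gcongr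
        exact h1.trans h2
    _ = R⁻¹ := by field_simp

/-- one step in the coordinate at infinity -/
lemma step {q : ℕ} {C : ℂ} {η : ℝ → ℂ} {G : ℝ → ℂ → ℂ} (h : NearS q C η G) {ε : ℝ}
    (hε : 0 < ε) : ∃ R : ℝ, 0 < R ∧ ∀ᶠ t in 𝓝[>] (0 : ℝ), ∀ y : ℂ, y ≠ 0 → R ≤ ‖Wf q C y‖ →
      G t y ≠ 0 ∧ ‖Wf q C (G t y) - (Wf q C y + 1 - q * η t * Wf q C y)‖ ≤
        ε * (1 + ‖η t * Wf q C y‖) := by
  have hq := h.hq
  have hC := h.hC
  have hq' : (0 : ℝ) < q := by exact_mod_cast hq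
  have hC' : 0 < ‖C‖ := norm_pos_iff.mpr hC
  have hqC : (q : ℂ) ≠ 0 := by exact_mod_cast (by omega : q ≠ 0)
  set K : ℝ := 2 + ‖C‖ with hK
  set ε1 : ℝ := min 1 (ε / ((K + q) * (1 + ((q : ℝ) * ‖C‖)⁻¹))) with hε1
  have hε1p : 0 < ε1 := by positivity
  have hε1a : ε1 ≤ 1 := min_le_left _ _
  have hε1b : ε1 * ((K + q) * (1 + ((q : ℝ) * ‖C‖)⁻¹)) ≤ ε := by
    have := min_le_right 1 (ε / ((K + q) * (1 + ((q : ℝ) * ‖C‖)⁻¹)))
    rwa [← hε1, le_div_iff₀ (by positivity)] at this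
  -- the derivative of (1+u)^(-q)
  have hd : HasDerivAt (fun u : ℂ => ((1 + u) ^ q)⁻¹) (-(q : ℂ)) 0 := by
    have h1 : HasDerivAt (fun u : ℂ => (1 + u) ^ q) ((q : ℂ) * (1 + 0) ^ (q - 1) * 1) 0 :=
      ((hasDerivAt_id (0 : ℂ)).const_add 1).pow q
    have h2 := h1.inv (by simp)
    exact h2.congr_deriv (by simp)
  have hlo := hd.isLittleO.def hε1p
  obtain ⟨u0, hu0, hu⟩ := Metric.eventually_nhds_iff.mp hlo
  obtain ⟨r0, hr0, hG⟩ := h.hG ε1 hε1p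
  set u1 : ℝ := min u0 1 with hu1
  have hu1p : 0 < u1 := by positivity
  set r' : ℝ := min r0 (min 1 (u1 / (4 * K))) with hr'
  have hr'p : 0 < r' := by positivity
  obtain ⟨R, hR, hRy⟩ := Wf_large hq hC hr'p
  refine ⟨R, hR, ?_⟩
  have hηs : ∀ᶠ t in 𝓝[>] (0 : ℝ), ‖η t‖ < u1 / (4 * K) := by
    have := h.hη0.norm
    rw [norm_zero] at this
    exact this.eventually (gt_mem_nhds (by positivity))
  filter_upwards [hG, hηs] with t hGt hηt y hy hyR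
  have hyr := hRy y hy hyR
  have hyr0 : ‖y‖ ≤ r0 := hyr.trans (min_le_left _ _)
  have hy1 : ‖y‖ ≤ 1 := hyr.trans ((min_le_right _ _).trans (min_le_left _ _))
  have hyu : ‖y‖ ≤ u1 / (4 * K) := hyr.trans ((min_le_right _ _).trans (min_le_right _ _))
  have hy' : 0 < ‖y‖ := norm_pos_iff.mpr hy
  have hyq : ‖y‖ ^ q ≤ ‖y‖ := pow_le_of_le_one hy'.le hy1 (by omega)
  have hKp : 0 < K := by positivity
  set ξ : ℝ := ‖η t‖ + ‖y‖ ^ q with hξ
  have hξ0 : 0 ≤ ξ := by positivity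
  have hξs : K * ξ < u1 := by
    have : ξ < u1 / (4 * K) + u1 / (4 * K) := by
      rw [hξ]; linarith
    calc K * ξ < K * (u1 / (4 * K) + u1 / (4 * K)) := by gcongr
      _ = u1 / 2 := by field_simp; norm_num
      _ < u1 := by linarith
  set e1 : ℂ := (G t y - y - (η t * y + C * y ^ (q + 1))) / y with he1
  have he1n : ‖e1‖ ≤ ε1 * ξ := by
    rw [he1, norm_div, div_le_iff₀ hy']
    refine (hGt y hyr0).trans (le_of_eq ?_)
    rw [hξ]; ring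
  set u : ℂ := η t + C * y ^ q + e1 with hudef
  have hGy : G t y = y * (1 + u) := by
    rw [hudef, he1]
    field_simp
    ring
  have hun : ‖u‖ ≤ K * ξ := by
    calc ‖u‖ ≤ ‖η t‖ + ‖C‖ * ‖y‖ ^ q + ‖e1‖ := by
          rw [hudef]
          refine (norm_add_le _ _).trans ?_
          gcongr
          refine (norm_add_le _ _).trans ?_
          rw [norm_mul, norm_pow]
      _ ≤ ‖η t‖ + ‖C‖ * ‖y‖ ^ q + 1 * ξ := by
          gcongr
          exact he1n.trans (by gcongr)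
      _ ≤ K * ξ := by
          rw [hK, hξ]
          nlinarith [norm_nonneg (η t), norm_nonneg C, pow_pos hy' q, mul_nonneg (norm_nonneg C) (norm_nonneg (η t))]
  have hu1' : ‖u‖ < 1 := (hun.trans_lt hξs).trans_le (min_le_right _ _)
  have hu0' : ‖u‖ < u0 := (hun.trans_lt hξs).trans_le (min_le_left _ _)
  have h1u : 1 + u ≠ 0 := by
    intro h0
    have : u = -1 := by linear_combination h0
    rw [this] at hu1'
    simp at hu1'
  have hfu := hu (y := u) (by simpa using hu0')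
  simp only [add_zero, one_pow, inv_one, sub_zero, smul_eq_mul] at hfu
  refine ⟨by rw [hGy]; exact mul_ne_zero hy h1u, ?_⟩
  set W : ℂ := Wf q C y with hW
  have hWy : (q : ℂ) * C * y ^ q * W = -1 := by
    rw [hW, Wf]
    have : (q : ℂ) * C * y ^ q ≠ 0 := by positivity
    field_simp
  have hWG : Wf q C (G t y) = W * ((1 + u) ^ q)⁻¹ := by
    rw [hGy, hW, Wf, Wf, mul_pow, ← mul_assoc, mul_inv]
    ring
  have hid : Wf q C (G t y) - (W + 1 - q * η t * W) =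
      W * (((1 + u) ^ q)⁻¹ - 1 - u * -(q : ℂ)) - q * e1 * W := by
    rw [hWG]
    linear_combination (exp := 1) (-1 : ℂ) * hWy + (q : ℂ) * W * hudef
  rw [hid]
  have hWn : ‖W‖ * ‖y‖ ^ q = ((q : ℝ) * ‖C‖)⁻¹ := by
    rw [hW, norm_Wf]
    field_simp
  have hWξ : ‖W‖ * ξ = ‖η t * W‖ + ((q : ℝ) * ‖C‖)⁻¹ := by
    rw [hξ, mul_add, hWn, norm_mul]
    ring
  calc ‖W * (((1 + u) ^ q)⁻¹ - 1 - u * -(q : ℂ)) - q * e1 * W‖
      ≤ ‖W‖ * (ε1 * (K * ξ)) + q * (ε1 * ξ) * ‖W‖ := by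
        refine (norm_sub_le _ _).trans ?_
        rw [norm_mul, norm_mul, norm_mul, Complex.norm_natCast]
        gcongr
        exact hfu.trans (by gcongr)
    _ = ε1 * (K + q) * (‖W‖ * ξ) := by ring
    _ = ε1 * (K + q) * (‖η t * W‖ + ((q : ℝ) * ‖C‖)⁻¹) := by rw [hWξ]
    _ ≤ ε1 * (K + q) * ((1 + ((q : ℝ) * ‖C‖)⁻¹) * (1 + ‖η t * W‖)) := by
        gcongr
        have : 0 < ((q : ℝ) * ‖C‖)⁻¹ := by positivity
        nlinarith [norm_nonneg (η t * W)]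
    _ = ε1 * ((K + q) * (1 + ((q : ℝ) * ‖C‖)⁻¹)) * (1 + ‖η t * W‖) := by ring
    _ ≤ ε * (1 + ‖η t * W‖) := by gcongr

lemma re_le (z : ℂ) : ‖z‖ ≤ |z.re| + |z.im| := Complex.norm_le_abs_re_add_abs_im z

/-- phase 1: the linear motion -/
lemma phase1 {q : ℕ} {C η : ℂ} {g : ℂ → ℂ} {κ R : ℝ} (hq : 1 ≤ q) (hη : η ≠ 0) (hκ0 : 0 < κ)
    (hκ1 : κ ≤ 1) (hR : 0 < R)
    (hst : ∀ y : ℂ, y ≠ 0 → R ≤ ‖Wf q C y‖ → g y ≠ 0 ∧
      ‖Wf q C (g y) - (Wf q C y + 1 - q * η * Wf q C y)‖ ≤ κ / 16 * (1 + ‖η * Wf q C y‖))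
    (hsm : (q : ℝ) * ‖η‖ * 2 ≤ κ / 8) (y : ℂ) (hy : y ≠ 0) (h1 : 2 * R ≤ ‖Wf q C y‖)
    (h2 : (q : ℝ) * ‖η‖ * ‖Wf q C y‖ ≤ κ / 4) (h3 : 0 < (Wf q C y).re)
    (h4 : |(Wf q C y).im| ≤ κ / 2 * (Wf q C y).re) :
    ∃ n : ℕ, (∀ j ≤ n, g^[j] y ≠ 0 ∧ R ≤ ‖Wf q C (g^[j] y)‖) ∧
      κ / 8 ≤ (q : ℝ) * ‖η‖ * ‖Wf q C (g^[n] y)‖ ∧ (q : ℝ) * ‖η‖ * ‖Wf q C (g^[n] y)‖ ≤ κ / 4 ∧
      0 < (Wf q C (g^[n] y)).re ∧
      |(Wf q C (g^[n] y)).im| ≤ κ / 2 * (Wf q C (g^[n] y)).re := by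
  have hq' : (1 : ℝ) ≤ q := by exact_mod_cast hq
  have hη' : 0 < ‖η‖ := norm_pos_iff.mpr hη
  obtain ⟨n, hn1, hn2⟩ := reach g
    (fun y => y ≠ 0 ∧ R ≤ (Wf q C y).re ∧ |(Wf q C y).im| ≤ κ / 2 * (Wf q C y).re ∧
      (q : ℝ) * ‖η‖ * ‖Wf q C y‖ ≤ κ / 4)
    (fun y => κ / 8 ≤ (q : ℝ) * ‖η‖ * ‖Wf q C y‖) (fun y => (Wf q C y).re)
    (κ / 4 / (q * ‖η‖)) (1 / 2) (by norm_num)
    (by
      rintro x ⟨-, -, -, hx⟩ -
      rw [le_div_iff₀ (by positivity)]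
      have := (le_abs_self _).trans (Complex.abs_re_le_norm (Wf q C x))
      nlinarith [mul_pos (by linarith : (0 : ℝ) < q) hη'])
    (by
      rintro x ⟨hx0, hx1, hx2, hx3⟩ hxQ
      push Not at hxQ
      have hRn : R ≤ ‖Wf q C x‖ := hx1.trans ((le_abs_self _).trans (Complex.abs_re_le_norm _))
      obtain ⟨hg0, hg1⟩ := hst x hx0 hRn
      set W := Wf q C x with hW
      set W' := Wf q C (g x) with hW'
      set D : ℂ := W' - (W + 1) with hD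
      have hηW : ‖η * W‖ ≤ (q : ℝ) * ‖η‖ * ‖W‖ := by
        rw [norm_mul]
        nlinarith [mul_nonneg hη'.le (norm_nonneg W)]
      have hqηW : ‖(q : ℂ) * η * W‖ = (q : ℝ) * ‖η‖ * ‖W‖ := by
        rw [norm_mul, norm_mul, Complex.norm_natCast]
      have hDn : ‖D‖ ≤ κ / 4 := by
        have e : D = (W' - (W + 1 - q * η * W)) - q * η * W := by rw [hD]; ring
        rw [e]
        refine (norm_sub_le _ _).trans ?_
        rw [hqηW]
        nlinarith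
      have hWD : W' = W + 1 + D := by rw [hD]; ring
      have hDre := (abs_le.mp ((Complex.abs_re_le_norm D).trans hDn)).1
      have hDim := (Complex.abs_im_le_norm D).trans hDn
      have hre : W'.re = W.re + 1 + D.re := by rw [hWD]; simp
      have him : W'.im = W.im + D.im := by rw [hWD]; simp
      refine ⟨⟨hg0, by rw [hre]; linarith, ?_, ?_⟩, ?_⟩
      · rw [him, hre]
        refine (abs_add_le _ _).trans ?_
        nlinarith
      · have : ‖W'‖ ≤ ‖W‖ + 2 := by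
          rw [hWD]
          refine (norm_add_le _ _).trans ?_
          have := norm_add_le W 1
          rw [norm_one] at this
          linarith
        calc (q : ℝ) * ‖η‖ * ‖W'‖ ≤ q * ‖η‖ * (‖W‖ + 2) := by gcongr
          _ = q * ‖η‖ * ‖W‖ + q * ‖η‖ * 2 := by ring
          _ ≤ κ / 4 := by linarith
      · rw [hre]; linarith) y
    ⟨hy, by
      have := re_le (Wf q C y)
      rw [abs_of_pos h3] at this
      nlinarith, h4, h2⟩
  refine ⟨n, fun j hj => ⟨(hn1 j hj).1, (hn1 j hj).2.1.trans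
    ((le_abs_self _).trans (Complex.abs_re_le_norm _))⟩, hn2, (hn1 n le_rfl).2.2.2,
    hR.trans_le (hn1 n le_rfl).2.1, (hn1 n le_rfl).2.2.1⟩

lemma norm_one_sub {p : ℂ} {κ : ℝ} (hκ0 : 0 < κ) (hκ1 : κ ≤ 1) (hp : κ * ‖p‖ ≤ p.re)
    (hs : ‖p‖ ≤ κ) : ‖1 - p‖ ≤ 1 - κ * ‖p‖ / 2 := by
  have h0 : 0 ≤ 1 - κ * ‖p‖ / 2 := by nlinarith [norm_nonneg p]
  refine abs_le_of_sq_le_sq' ?_ h0 |>.2
  have e1 : ‖1 - p‖ ^ 2 = 1 - 2 * p.re + ‖p‖ ^ 2 := by
    rw [Complex.sq_norm, Complex.sq_norm, Complex.normSq_apply, Complex.normSq_apply]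
    simp
    ring
  rw [e1]
  nlinarith [norm_nonneg p, mul_nonneg hκ0.le (norm_nonneg p), sq_nonneg (κ * ‖p‖ / 2)]

/-- phase 2 when `0` is repelling: the orbit comes to the root -/
lemma phase2B {q : ℕ} {C η : ℂ} {g : ℂ → ℂ} {κ R v0 v1 : ℝ} (hq : 1 ≤ q) (hη : η ≠ 0)
    (hκ0 : 0 < κ) (hκ1 : κ ≤ 1) (hv0 : 0 < v0) (hv1 : v1 < 1)
    (hst : ∀ y : ℂ, y ≠ 0 → R ≤ ‖Wf q C y‖ → g y ≠ 0 ∧
      ‖Wf q C (g y) - (Wf q C y + 1 - q * η * Wf q C y)‖ ≤ κ * v0 / 12 * (1 + ‖η * Wf q C y‖))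
    (hre : κ * ‖(q : ℂ) * η‖ ≤ ((q : ℂ) * η).re) (hsm : ‖(q : ℂ) * η‖ ≤ κ)
    (hR : ‖(q : ℂ) * η‖ * R ≤ 1 - v1) (y : ℂ) (hy : y ≠ 0)
    (hV : ‖1 - q * η * Wf q C y‖ ≤ v1) :
    ∃ n : ℕ, (∀ j ≤ n, g^[j] y ≠ 0 ∧ R ≤ ‖Wf q C (g^[j] y)‖) ∧
      ‖1 - q * η * Wf q C (g^[n] y)‖ < v0 := by
  have hq' : (1 : ℝ) ≤ q := by exact_mod_cast hq
  have hη' : 0 < ‖η‖ := norm_pos_iff.mpr hη
  have hqC : (q : ℂ) ≠ 0 := by exact_mod_cast (by omega : q ≠ 0)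
  set p : ℂ := q * η with hp
  have hp0 : 0 < ‖p‖ := norm_pos_iff.mpr (mul_ne_zero hqC hη)
  have hηp : ‖η‖ ≤ ‖p‖ := by
    rw [hp, norm_mul, Complex.norm_natCast]
    nlinarith
  have hW : ∀ x : ℂ, ‖1 - p * Wf q C x‖ ≤ v1 → R ≤ ‖Wf q C x‖ := by
    intro x hx
    have h1 : 1 ≤ ‖1 - p * Wf q C x‖ + ‖p * Wf q C x‖ := by
      have := norm_add_le (1 - p * Wf q C x) (p * Wf q C x)
      rw [sub_add_cancel, norm_one] at this
      exact this
    rw [norm_mul p] at h1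
    have h2 : ‖p‖ * R ≤ ‖p‖ * ‖Wf q C x‖ := by linarith
    exact le_of_mul_le_mul_left h2 hp0
  obtain ⟨n, hn1, hn2⟩ := reach g (fun y => y ≠ 0 ∧ ‖1 - p * Wf q C y‖ ≤ v1)
    (fun y => ‖1 - p * Wf q C y‖ < v0) (fun y => -‖1 - p * Wf q C y‖) 0 (κ * ‖p‖ * v0 / 4)
    (by positivity) (fun x _ _ => by simp)
    (by
      rintro x ⟨hx0, hx1⟩ hxQ
      push Not at hxQ
      obtain ⟨hg0, hg1⟩ := hst x hx0 (hW x hx1)
      set W := Wf q C x with hWdef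
      set E : ℂ := Wf q C (g x) - (W + 1 - p * W) with hE
      set V : ℂ := 1 - p * W with hVdef
      have hV' : 1 - p * Wf q C (g x) = V * (1 - p) - p * E := by
        rw [hE, hVdef]; ring
      have hpW : ‖p * W‖ ≤ 2 := by
        have : p * W = 1 - V := by rw [hVdef]; ring
        rw [this]
        refine (norm_sub_le _ _).trans ?_
        rw [norm_one]
        linarith
      have hηW : ‖η * W‖ ≤ 2 := by
        refine le_trans ?_ hpW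
        rw [norm_mul, norm_mul]
        gcongr
      have hEn : ‖E‖ ≤ κ * v0 / 4 := by
        refine hg1.trans ?_
        have : κ * v0 / 12 * (1 + ‖η * W‖) ≤ κ * v0 / 12 * 3 := by
          gcongr
          linarith
        linarith
      have h1p := norm_one_sub hκ0 hκ1 hre hsm
      have hkey : ‖1 - p * Wf q C (g x)‖ ≤ ‖V‖ - κ * ‖p‖ * v0 / 4 := by
        rw [hV']
        refine (norm_sub_le _ _).trans ?_
        rw [norm_mul, norm_mul]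
        have a1 : ‖V‖ * ‖1 - p‖ ≤ ‖V‖ * (1 - κ * ‖p‖ / 2) := by gcongr
        have a2 : ‖p‖ * ‖E‖ ≤ ‖p‖ * (κ * v0 / 4) := by gcongr
        have a3 : κ * ‖p‖ * v0 ≤ κ * ‖p‖ * ‖V‖ := by gcongr
        nlinarith
      have hpos : 0 < κ * ‖p‖ * v0 / 4 := by positivity
      refine ⟨⟨hg0, by linarith⟩, by linarith⟩) y ⟨hy, hV⟩
  exact ⟨n, fun j hj => ⟨(hn1 j hj).1, hW _ (hn1 j hj).2⟩, hn2⟩

/-- phase 2 when `0` is attracting: the orbit comes to `0` -/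
lemma phase2A {q : ℕ} {C η : ℂ} {g : ℂ → ℂ} {κ R B v1 : ℝ} (hq : 1 ≤ q) (hη : η ≠ 0)
    (hκ0 : 0 < κ) (_hκ1 : κ ≤ 1) (hv1 : 0 < v1)
    (hst : ∀ y : ℂ, y ≠ 0 → R ≤ ‖Wf q C y‖ → g y ≠ 0 ∧
      ‖Wf q C (g y) - (Wf q C y + 1 - q * η * Wf q C y)‖ ≤ κ / 16 * (1 + ‖η * Wf q C y‖))
    (hre : ((q : ℂ) * η).re ≤ -κ * ‖(q : ℂ) * η‖)
    (hR : ‖(q : ℂ) * η‖ * R ≤ v1) (y : ℂ) (hy : y ≠ 0)
    (hV : 1 + v1 ≤ ‖1 - q * η * Wf q C y‖) :
    ∃ n : ℕ, (∀ j ≤ n, g^[j] y ≠ 0 ∧ R ≤ ‖Wf q C (g^[j] y)‖) ∧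
      B ≤ ‖1 - q * η * Wf q C (g^[n] y)‖ := by
  have hq' : (1 : ℝ) ≤ q := by exact_mod_cast hq
  have hη' : 0 < ‖η‖ := norm_pos_iff.mpr hη
  have hqC : (q : ℂ) ≠ 0 := by exact_mod_cast (by omega : q ≠ 0)
  set p : ℂ := q * η with hp
  have hp0 : 0 < ‖p‖ := norm_pos_iff.mpr (mul_ne_zero hqC hη)
  have hηp : ‖η‖ ≤ ‖p‖ := by
    rw [hp, norm_mul, Complex.norm_natCast]
    nlinarith
  have hW : ∀ x : ℂ, 1 + v1 ≤ ‖1 - p * Wf q C x‖ → R ≤ ‖Wf q C x‖ := by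
    intro x hx
    have h1 : ‖1 - p * Wf q C x‖ ≤ 1 + ‖p * Wf q C x‖ := by
      have := norm_sub_le 1 (p * Wf q C x)
      rwa [norm_one] at this
    rw [norm_mul p] at h1
    have h2 : ‖p‖ * R ≤ ‖p‖ * ‖Wf q C x‖ := by linarith
    exact le_of_mul_le_mul_left h2 hp0
  obtain ⟨n, hn1, hn2⟩ := reach g (fun y => y ≠ 0 ∧ 1 + v1 ≤ ‖1 - p * Wf q C y‖)
    (fun y => B ≤ ‖1 - p * Wf q C y‖) (fun y => ‖1 - p * Wf q C y‖) B (κ * ‖p‖ / 2)
    (by positivity) (fun x _ hx => by push Not at hx; exact hx.le)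
    (by
      rintro x ⟨hx0, hx1⟩ hxQ
      obtain ⟨hg0, hg1⟩ := hst x hx0 (hW x hx1)
      set W := Wf q C x with hWdef
      set E : ℂ := Wf q C (g x) - (W + 1 - p * W) with hE
      set V : ℂ := 1 - p * W with hVdef
      have hV' : 1 - p * Wf q C (g x) = V * (1 - p) - p * E := by
        rw [hE, hVdef]; ring
      have hpW : ‖p * W‖ ≤ 2 * ‖V‖ := by
        have : p * W = 1 - V := by rw [hVdef]; ring
        rw [this]
        refine (norm_sub_le _ _).trans ?_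
        rw [norm_one]
        linarith
      have hηW : ‖η * W‖ ≤ 2 * ‖V‖ := by
        refine le_trans ?_ hpW
        rw [norm_mul, norm_mul]
        gcongr
      have hEn : ‖E‖ ≤ κ / 16 * (3 * ‖V‖) := by
        refine hg1.trans ?_
        gcongr
        linarith
      have h1p : 1 + κ * ‖p‖ ≤ ‖1 - p‖ := by
        have := (le_abs_self _).trans (Complex.abs_re_le_norm (1 - p))
        simp only [Complex.sub_re, Complex.one_re] at this
        linarith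
      have hkey : ‖V‖ + κ * ‖p‖ / 2 ≤ ‖1 - p * Wf q C (g x)‖ := by
        rw [hV']
        refine le_trans ?_ (norm_sub_norm_le _ _)
        rw [norm_mul V, norm_mul p E]
        have hVn : 1 ≤ ‖V‖ := by linarith
        have a1 : ‖V‖ * (1 + κ * ‖p‖) ≤ ‖V‖ * ‖1 - p‖ := by gcongr
        have a2 : ‖p‖ * ‖E‖ ≤ ‖p‖ * (κ / 16 * (3 * ‖V‖)) := by gcongr
        have a3 : κ * ‖p‖ * 1 ≤ κ * ‖p‖ * ‖V‖ := by gcongr
        nlinarith
      have hpos : 0 < κ * ‖p‖ / 2 := by positivity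
      refine ⟨⟨hg0, by linarith⟩, by linarith⟩) y ⟨hy, hV⟩
  exact ⟨n, fun j hj => ⟨(hn1 j hj).1, hW _ (hn1 j hj).2⟩, hn2⟩

/-- the roots are small -/
lemma root_small {q : ℕ} (hq : 1 ≤ q) {C : ℂ} (hC : C ≠ 0) {η : ℝ → ℂ}
    (hη0 : Tendsto η (𝓝[>] (0 : ℝ)) (𝓝 0)) {r : ℝ} (hr : 0 < r) :
    ∀ᶠ t in 𝓝[>] (0 : ℝ), ∀ s : ℂ, ‖C‖ * ‖s‖ ^ q = ‖η t‖ → ‖s‖ ≤ r := by
  have hC' : 0 < ‖C‖ := norm_pos_iff.mpr hC
  have h1 := hη0.norm
  rw [norm_zero] at h1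
  filter_upwards [h1.eventually (gt_mem_nhds (show 0 < ‖C‖ * r ^ q by positivity))] with t ht s hs
  rw [← hs] at ht
  exact ((pow_lt_pow_iff_left₀ (norm_nonneg _) hr.le (by omega)).mp
    (lt_of_mul_lt_mul_left ht hC'.le)).le

/-- the trap around the attracting point `0` -/
lemma near_zero {q : ℕ} {C : ℂ} {η : ℝ → ℂ} {G : ℝ → ℂ → ℂ} (h : NearS q C η G) {κ : ℝ}
    (hκ0 : 0 < κ) (hκ1 : κ ≤ 1) (hκ : ∀ᶠ t in 𝓝[>] (0 : ℝ), (η t).re ≤ -κ * ‖η t‖) {r : ℝ}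
    (hr : 0 < r) : ∃ b : ℝ, 0 < b ∧ ∀ᶠ t in 𝓝[>] (0 : ℝ), ∀ s : ℂ, ‖C‖ * ‖s‖ ^ q = ‖η t‖ →
      ∀ y : ℂ, ‖y‖ ≤ b * ‖s‖ → ‖y‖ ≤ r ∧ ‖G t y‖ ≤ (1 - κ * ‖η t‖ / 4) * ‖y‖ := by
  have hq := h.hq
  have hC := h.hC
  have hC' : 0 < ‖C‖ := norm_pos_iff.mpr hC
  set ε : ℝ := min (κ / 16) ‖C‖ with hε
  have hεp : 0 < ε := by positivity
  have hεa : ε ≤ κ / 16 := min_le_left _ _
  have hεb : ε ≤ ‖C‖ := min_le_right _ _
  obtain ⟨r0, hr0, hG⟩ := h.hG ε hεp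
  refine ⟨κ / 16, by positivity, ?_⟩
  have hηs : ∀ᶠ t in 𝓝[>] (0 : ℝ), ‖η t‖ < κ := by
    have := h.hη0.norm
    rw [norm_zero] at this
    exact this.eventually (gt_mem_nhds hκ0)
  filter_upwards [hG, hηs, hκ, root_small hq hC h.hη0 (show 0 < min r r0 by positivity)] with
    t hGt hηt hκt hst s hs y hy
  have hs1 := hst s hs
  have hsn := norm_nonneg s
  have hyn := norm_nonneg y
  have hys : ‖y‖ ≤ ‖s‖ := by nlinarith
  have hyr : ‖y‖ ≤ r := (hys.trans hs1).trans (min_le_left _ _)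
  have hyr0 : ‖y‖ ≤ r0 := (hys.trans hs1).trans (min_le_right _ _)
  refine ⟨hyr, ?_⟩
  have h1 : ‖1 + η t‖ ≤ 1 - κ * ‖η t‖ / 2 := by
    have := norm_one_sub (p := -η t) hκ0 hκ1 (by simpa using by linarith) (by simpa using hηt.le)
    simpa using this
  have hyq : ‖C‖ * ‖y‖ ^ q ≤ κ / 16 * ‖η t‖ := by
    calc ‖C‖ * ‖y‖ ^ q ≤ ‖C‖ * (κ / 16 * ‖s‖) ^ q := by gcongr
      _ = (κ / 16) ^ q * (‖C‖ * ‖s‖ ^ q) := by ring
      _ = (κ / 16) ^ q * ‖η t‖ := by rw [hs]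
      _ ≤ κ / 16 * ‖η t‖ := by
        gcongr
        exact pow_le_of_le_one (by positivity) (by linarith) (by omega)
  have hyq2 : ε * ‖y‖ ^ q ≤ κ / 16 * ‖η t‖ := (by gcongr : ε * ‖y‖ ^ q ≤ ‖C‖ * ‖y‖ ^ q).trans hyq
  have e : G t y = y * (1 + η t) + C * y ^ q * y + (G t y - y - (η t * y + C * y ^ (q + 1))) := by
    ring
  have hGy := hGt y hyr0
  rw [e]
  refine (norm_add₃_le).trans ?_
  rw [norm_mul y, norm_mul _ y, norm_mul C, norm_pow]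
  have a1 : ‖y‖ * ‖1 + η t‖ ≤ ‖y‖ * (1 - κ * ‖η t‖ / 2) := by gcongr
  have a2 : ‖C‖ * ‖y‖ ^ q * ‖y‖ ≤ κ / 16 * ‖η t‖ * ‖y‖ := by gcongr
  have a3 : ε * (‖η t‖ * ‖y‖ + ‖y‖ ^ (q + 1)) ≤ κ / 16 * ‖η t‖ * ‖y‖ + κ / 16 * ‖η t‖ * ‖y‖ := by
    have a4 : ε * ‖y‖ ^ q * ‖y‖ ≤ κ / 16 * ‖η t‖ * ‖y‖ := by gcongr
    have a5 : ε * (‖η t‖ * ‖y‖) ≤ κ / 16 * (‖η t‖ * ‖y‖) := by gcongr
    calc _ = ε * (‖η t‖ * ‖y‖) + ε * ‖y‖ ^ q * ‖y‖ := by ring
      _ ≤ _ := by linarith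
  have a6 := mul_nonneg (mul_nonneg hκ0.le (norm_nonneg (η t))) hyn
  nlinarith

/-- the traps around the attracting roots -/
lemma near_root {q : ℕ} {C : ℂ} {η : ℝ → ℂ} {G : ℝ → ℂ → ℂ} (h : NearS q C η G) {κ : ℝ}
    (hκ0 : 0 < κ) (hκ1 : κ ≤ 1) (hκ : ∀ᶠ t in 𝓝[>] (0 : ℝ), κ * ‖η t‖ ≤ (η t).re) {r : ℝ}
    (hr : 0 < r) : ∃ b : ℝ, 0 < b ∧ b ≤ 1 / 2 ∧ ∀ᶠ t in 𝓝[>] (0 : ℝ), ∀ s : ℂ, s ^ q = -η t / C →
      ∀ y : ℂ, ‖y - s‖ ≤ b * ‖s‖ → ‖y‖ ≤ r ∧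
        ‖G t y - s‖ ≤ (1 - κ * ‖η t‖ / 4) * ‖y - s‖ + κ * ‖η t‖ / 4 * (b * ‖s‖) / 16 := by
  have hq := h.hq
  have hC := h.hC
  have hC' : 0 < ‖C‖ := norm_pos_iff.mpr hC
  have hq' : (1 : ℝ) ≤ q := by exact_mod_cast hq
  -- expansion of (1+w)(1-(1+w)^q)
  have hd : HasDerivAt (fun w : ℂ => (1 + w) * (1 - (1 + w) ^ q)) (-(q : ℂ)) 0 := by
    have h0 : HasDerivAt (fun w : ℂ => 1 + w) 1 0 := (hasDerivAt_id (0 : ℂ)).const_add 1
    have h1 : HasDerivAt (fun u : ℂ => 1 - (1 + u) ^ q) (-((q : ℂ) * (1 + 0) ^ (q - 1) * 1)) 0 :=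
      (h0.pow q).const_sub 1
    exact (h0.mul h1).congr_deriv (by simp)
  have hlo := hd.isLittleO.def (show 0 < κ / 4 by positivity)
  obtain ⟨u0, hu0, hu⟩ := Metric.eventually_nhds_iff.mp hlo
  set b : ℝ := min (u0 / 2) (1 / 2) with hb
  have hbp : 0 < b := by positivity
  have hb1 : b ≤ 1 / 2 := min_le_right _ _
  have hb2 : b < u0 := (min_le_left _ _).trans_lt (by linarith)
  set K : ℝ := 2 + 2 ^ (q + 1) / ‖C‖ with hK
  have hKp : 0 < K := by positivity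
  set ε : ℝ := κ * b / 64 / K with hε
  have hεp : 0 < ε := by positivity
  have hεK : ε * K = κ * b / 64 := by rw [hε]; field_simp
  obtain ⟨r0, hr0, hG⟩ := h.hG ε hεp
  refine ⟨b, hbp, hb1, ?_⟩
  have hηs : ∀ᶠ t in 𝓝[>] (0 : ℝ), ‖η t‖ < κ / q := by
    have := h.hη0.norm
    rw [norm_zero] at this
    exact this.eventually (gt_mem_nhds (by positivity))
  filter_upwards [hG, hηs, hκ, h.hη, root_small hq hC h.hη0 (show 0 < min r r0 / 2 by positivity)]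
    with t hGt hηt hκt hη0 hst s hs y hy
  have hs0 : s ≠ 0 := by
    rintro rfl
    rw [zero_pow (by omega)] at hs
    exact (div_ne_zero (neg_ne_zero.mpr hη0) hC) hs.symm
  have hsn : 0 < ‖s‖ := norm_pos_iff.mpr hs0
  have hCs : C * s ^ q = -η t := by rw [hs]; field_simp
  have hCsn : ‖C‖ * ‖s‖ ^ q = ‖η t‖ := by
    rw [← norm_pow, ← norm_mul, hCs, norm_neg]
  have hs1 := hst s hCsn
  set w : ℂ := (y - s) / s with hw
  have hyw : y = s * (1 + w) := by rw [hw]; field_simp; ring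
  have hwn : ‖y - s‖ = ‖s‖ * ‖w‖ := by rw [hw, norm_div]; field_simp
  have hwb : ‖w‖ ≤ b := by
    rw [hw, norm_div, div_le_iff₀ hsn]
    exact hy
  have hy2 : ‖y‖ ≤ 2 * ‖s‖ := by
    have : ‖y‖ ≤ ‖y - s‖ + ‖s‖ := by
      have := norm_add_le (y - s) s
      rwa [sub_add_cancel] at this
    nlinarith
  have hyr : ‖y‖ ≤ r := by
    have := min_le_left r r0
    linarith
  have hyr0 : ‖y‖ ≤ r0 := by
    have := min_le_right r r0
    linarith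
  refine ⟨hyr, ?_⟩
  have hηn : 0 ≤ ‖η t‖ := norm_nonneg _
  have hfu := hu (y := w) (by simpa using hwb.trans_lt hb2)
  simp only [add_zero, one_pow, sub_self, mul_zero, sub_zero, smul_eq_mul] at hfu
  have e : G t y - s = s * (w * (1 - q * η t)) +
      s * η t * ((1 + w) * (1 - (1 + w) ^ q) - w * -(q : ℂ)) +
      (G t y - y - (η t * y + C * y ^ (q + 1))) := by
    have e1 : C * y ^ (q + 1) = -η t * (1 + w) ^ q * y := by
      rw [pow_succ, ← mul_assoc]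
      congr 1
      rw [hyw, mul_pow, ← mul_assoc, hCs]
    rw [e1]
    linear_combination (1 - (1 + w) ^ q * η t + η t) * hyw
  have h1 : ‖1 - (q : ℂ) * η t‖ ≤ 1 - κ * ‖η t‖ / 2 := by
    have hn : ‖(q : ℂ) * η t‖ = q * ‖η t‖ := by rw [norm_mul, Complex.norm_natCast]
    have h2 : ‖(q : ℂ) * η t‖ ≤ κ := by
      rw [hn]
      have := hηt.le
      rw [le_div_iff₀ (by positivity)] at this
      linarith
    have h3 : κ * ‖(q : ℂ) * η t‖ ≤ ((q : ℂ) * η t).re := by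
      rw [hn]
      have : ((q : ℂ) * η t).re = q * (η t).re := by simp
      rw [this]
      nlinarith
    refine (norm_one_sub hκ0 hκ1 h3 h2).trans ?_
    rw [hn]
    have : κ * ‖η t‖ * 1 ≤ κ * ‖η t‖ * q := by gcongr
    nlinarith
  have hGy := hGt y hyr0
  have hyq : ‖y‖ ^ (q + 1) ≤ 2 ^ (q + 1) / ‖C‖ * ‖η t‖ * ‖s‖ := by
    calc ‖y‖ ^ (q + 1) ≤ (2 * ‖s‖) ^ (q + 1) := by gcongr
      _ = 2 ^ (q + 1) / ‖C‖ * (‖C‖ * ‖s‖ ^ q) * ‖s‖ := by field_simp; ring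
      _ = _ := by rw [hCsn]
  have herr : ‖G t y - y - (η t * y + C * y ^ (q + 1))‖ ≤ κ * b / 64 * (‖η t‖ * ‖s‖) := by
    refine hGy.trans ?_
    calc ε * (‖η t‖ * ‖y‖ + ‖y‖ ^ (q + 1))
        ≤ ε * (‖η t‖ * (2 * ‖s‖) + 2 ^ (q + 1) / ‖C‖ * ‖η t‖ * ‖s‖) := by gcongr
      _ = ε * K * (‖η t‖ * ‖s‖) := by rw [hK]; ring
      _ = _ := by rw [hεK]
  rw [e]
  refine (norm_add₃_le).trans ?_
  rw [norm_mul s, norm_mul w, norm_mul (s * η t), norm_mul s, hwn]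
  have a1 : ‖s‖ * (‖w‖ * ‖1 - (q : ℂ) * η t‖) ≤ ‖s‖ * (‖w‖ * (1 - κ * ‖η t‖ / 2)) := by gcongr
  have a2 : ‖s‖ * ‖η t‖ * ‖(1 + w) * (1 - (1 + w) ^ q) - w * -(q : ℂ)‖ ≤
      ‖s‖ * ‖η t‖ * (κ / 4 * ‖w‖) := by gcongr
  calc _ ≤ ‖s‖ * (‖w‖ * (1 - κ * ‖η t‖ / 2)) + ‖s‖ * ‖η t‖ * (κ / 4 * ‖w‖) +
        κ * b / 64 * (‖η t‖ * ‖s‖) := by linarith
    _ = _ := by ring

/-- the root near `y` -/
lemma root_near {q : ℕ} (hq : 1 ≤ q) {b : ℝ} (hb : 0 < b) : ∃ v0 : ℝ, 0 < v0 ∧ v0 < 1 ∧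
    ∀ V : ℂ, ‖V‖ < v0 → ∃ x : ℂ, x ^ q = (1 - V)⁻¹ ∧ ‖x - 1‖ < b := by
  have hc : ContinuousAt (fun V : ℂ => ((1 - V)⁻¹) ^ ((q : ℂ)⁻¹)) 0 := by
    have h1 : ContinuousAt (fun V : ℂ => (1 - V)⁻¹) 0 :=
      (continuousAt_const.sub continuousAt_id).inv₀ (by simp)
    exact ContinuousAt.cpow h1 continuousAt_const (by simp [Complex.one_mem_slitPlane])
  obtain ⟨v, hv, hV⟩ := Metric.continuousAt_iff.mp hc b hb
  refine ⟨min v (1 / 2), by positivity, (min_le_right _ _).trans_lt (by norm_num), fun V hV' => ?_⟩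
  refine ⟨((1 - V)⁻¹) ^ ((q : ℂ)⁻¹), Complex.cpow_nat_inv_pow _ (by omega), ?_⟩
  have := hV (x := V) (by simpa using hV'.trans_le (min_le_left _ _))
  simpa [dist_eq_norm] using this

lemma re_mul_le {η W : ℂ} {κ : ℝ} (hκ1 : κ ≤ 1) (hη : κ * ‖η‖ ≤ η.re) (h0 : 0 < W.re)
    (h1 : |W.im| ≤ κ / 2 * W.re) (hκ0 : 0 < κ) : κ / 4 * (‖η‖ * ‖W‖) ≤ (η * W).re := by
  have h2 : ‖W‖ ≤ 2 * W.re := by
    have := re_le W
    rw [abs_of_pos h0] at this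
    nlinarith
  have h3 : |η.im * W.im| ≤ ‖η‖ * (κ / 2 * W.re) := by
    rw [abs_mul]
    gcongr
    exact Complex.abs_im_le_norm η
  rw [Complex.mul_re]
  have h4 := (abs_le.mp h3).2
  have h5 : κ * ‖η‖ * W.re ≤ η.re * W.re := by gcongr
  have h6 : κ / 4 * (‖η‖ * ‖W‖) ≤ κ / 4 * (‖η‖ * (2 * W.re)) := by gcongr
  nlinarith

end PX3

open PX3 in
/-- PACKAGE X3 -/
theorem captS : S_captS := by
  intro q C η G h r hr
  have hq := h.hq
  have hC := h.hC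
  have hC' : 0 < ‖C‖ := norm_pos_iff.mpr hC
  have hq' : (1 : ℝ) ≤ q := by exact_mod_cast hq
  have hqC : (q : ℂ) ≠ 0 := by exact_mod_cast (by omega : q ≠ 0)
  have hηn : Tendsto (fun t => ‖η t‖) (𝓝[>] (0 : ℝ)) (𝓝 0) := by
    have := h.hη0.norm
    rwa [norm_zero] at this
  have hsmall : ∀ x : ℝ, 0 < x → ∀ᶠ t in 𝓝[>] (0 : ℝ), ‖η t‖ < x := fun x hx =>
    hηn.eventually (gt_mem_nhds hx)
  obtain ⟨κ0, hκ00, hdir0⟩ := h.hdir
  set κ : ℝ := min κ0 1 with hκdef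
  have hκ0 : 0 < κ := by positivity
  have hκ1 : κ ≤ 1 := min_le_right _ _
  have hκκ : κ ≤ κ0 := min_le_left _ _
  obtain ⟨R1, hR1, hst1⟩ := step h (show 0 < κ / 16 by positivity)
  obtain ⟨Rr, hRr, hRry⟩ := Wf_large hq hC hr
  have hdir : (∀ᶠ t in 𝓝[>] (0 : ℝ), (η t).re ≤ -κ * ‖η t‖) ∨
      (∀ᶠ t in 𝓝[>] (0 : ℝ), κ * ‖η t‖ ≤ (η t).re) := by
    rcases hdir0 with hd | hd
    · left
      filter_upwards [hd] with t ht
      have := mul_le_mul_of_nonneg_right hκκ (norm_nonneg (η t))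
      linarith
    · right
      filter_upwards [hd] with t ht
      have := mul_le_mul_of_nonneg_right hκκ (norm_nonneg (η t))
      linarith
  set R : ℝ := max R1 Rr with hRdef
  have hR : 0 < R := lt_max_of_lt_left hR1
  obtain ⟨r1, hr1, hr1y⟩ := Wf_small hq hC (show 0 < 2 * R by positivity)
  refine ⟨r1, hr1, κ / 2, by positivity, fun r2 hr2 => ?_⟩
  set M : ℝ := ((q : ℝ) * ‖C‖ * r2 ^ q)⁻¹ with hM
  have hMp : 0 < M := by positivity
  -- phase 1 for all small `t`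
  have hph1 : ∀ᶠ t in 𝓝[>] (0 : ℝ), ∀ y : ℂ, r2 ≤ ‖y‖ → ‖y‖ ≤ r1 → 0 < (Wf q C y).re →
      |(Wf q C y).im| ≤ κ / 2 * (Wf q C y).re →
      ∃ n : ℕ, (∀ j ≤ n, (G t)^[j] y ≠ 0 ∧ R ≤ ‖Wf q C ((G t)^[j] y)‖) ∧
      κ / 8 ≤ (q : ℝ) * ‖η t‖ * ‖Wf q C ((G t)^[n] y)‖ ∧
      (q : ℝ) * ‖η t‖ * ‖Wf q C ((G t)^[n] y)‖ ≤ κ / 4 ∧
      0 < (Wf q C ((G t)^[n] y)).re ∧
      |(Wf q C ((G t)^[n] y)).im| ≤ κ / 2 * (Wf q C ((G t)^[n] y)).re := by
    filter_upwards [hst1, h.hη, hsmall (κ / 16 / q) (by positivity),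
      hsmall (κ / 4 / (q * M)) (by positivity)] with t ht1 ht2 ht3 ht4 y hy1 hy2 hy3 hy4
    have hy0 : y ≠ 0 := norm_pos_iff.mp (hr2.trans_le hy1)
    refine phase1 hq ht2 hκ0 hκ1 hR
      (fun y hy hy' => ht1 y hy ((le_max_left _ _).trans hy')) ?_ y hy0 (hr1y y hy0 hy2) ?_ hy3 hy4
    · have := ht3.le
      rw [le_div_iff₀ (by positivity)] at this
      nlinarith
    · have := ht4.le
      rw [le_div_iff₀ (by positivity)] at this
      have h5 : ‖Wf q C y‖ ≤ M := by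
        rw [norm_Wf, hM]
        gcongr
      calc (q : ℝ) * ‖η t‖ * ‖Wf q C y‖ ≤ q * ‖η t‖ * M := by gcongr
        _ ≤ κ / 4 := by nlinarith
  rcases hdir with hd | hd
  · -- `0` is attracting
    obtain ⟨b, hb, hnz⟩ := near_zero h hκ0 hκ1 hd hr
    set B : ℝ := 2 + (b ^ q)⁻¹ with hB
    set v1 : ℝ := κ ^ 2 / 32 with hv1
    have hv1p : 0 < v1 := by positivity
    filter_upwards [hph1, hst1, h.hη, hnz, hd, hsmall 1 one_pos,
      hsmall (v1 / (q * R)) (by positivity)] with t ht1 ht2 ht3 ht4 ht5 ht6 ht7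
    obtain ⟨s, hs⟩ := IsAlgClosed.exists_pow_nat_eq (η t / C) (show 0 < q by omega)
    have hηp : 0 < ‖η t‖ := norm_pos_iff.mpr ht3
    have hsC : ‖C‖ * ‖s‖ ^ q = ‖η t‖ := by
      rw [← norm_pow, hs, norm_div]
      field_simp
    have hs0 : s ≠ 0 := by
      rintro rfl
      rw [norm_zero, zero_pow (by omega), mul_zero] at hsC
      exact hηp.ne hsC
    have hsp : 0 < ‖s‖ := norm_pos_iff.mpr hs0
    have hρ : 0 < b * ‖s‖ := by positivity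
    refine ⟨{(0, b * ‖s‖)}, ?_, ?_⟩
    · intro i hi
      rw [Finset.mem_singleton] at hi
      subst hi
      obtain ⟨h1, h2⟩ := trap_of (g := G t) (c := 0) hρ (x := κ * ‖η t‖ / 4) (by positivity)
        (by nlinarith) (fun y hy => by
          have h3 := (ht4 s hsC y (by simpa using hy)).2
          rw [sub_zero, sub_zero]
          have h4 : 0 ≤ κ * ‖η t‖ / 4 * (b * ‖s‖) / 16 := by positivity
          linarith)
      exact ⟨fun y hy => ⟨(ht4 s hsC y (by simpa using hy)).1, h1 y hy⟩, h2⟩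
    · intro y hy1 hy2 hy3 hy4
      obtain ⟨n, hn1, hn2, hn3, hn4, hn5⟩ := ht1 y hy1 hy2 hy3 hy4
      set z := (G t)^[n] y with hz
      have hre : κ / 4 * (‖η t‖ * ‖Wf q C z‖) ≤ (-(η t) * Wf q C z).re := by
        have := re_mul_le (η := -η t) (W := Wf q C z) hκ1
          (by rw [norm_neg, Complex.neg_re]; linarith) hn4 hn5 hκ0
        rwa [norm_neg] at this
      have hV : 1 + v1 ≤ ‖1 - q * η t * Wf q C z‖ := by
        refine le_trans ?_ ((le_abs_self _).trans (Complex.abs_re_le_norm _))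
        have e : (1 - (q : ℂ) * η t * Wf q C z).re = 1 + q * (-(η t) * Wf q C z).re := by
          have : (q : ℂ) * η t * Wf q C z = -((q : ℝ) * (-(η t) * Wf q C z)) := by
            push_cast; ring
          rw [this, Complex.sub_re, Complex.neg_re, Complex.re_ofReal_mul]
          simp
        rw [e, hv1]
        have : (q : ℝ) * (κ / 4 * (‖η t‖ * ‖Wf q C z‖)) ≤ q * (-(η t) * Wf q C z).re := by gcongr
        nlinarith
      have hqη : ‖(q : ℂ) * η t‖ = q * ‖η t‖ := by rw [norm_mul, Complex.norm_natCast]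
      obtain ⟨m, hm1, hm2⟩ := phase2A (B := B) (R := R) hq ht3 hκ0 hκ1 hv1p
        (fun y hy hy' => ht2 y hy ((le_max_left _ _).trans hy'))
        (by
          rw [hqη]
          have : ((q : ℂ) * η t).re = q * (η t).re := by simp
          rw [this]
          nlinarith)
        (by
          rw [hqη]
          have := ht7.le
          rw [le_div_iff₀ (by positivity)] at this
          nlinarith) z (hn1 n le_rfl).1 hV
      refine ⟨_, Finset.mem_singleton_self _, m + n, fun j hj => ?_, ?_⟩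
      · rcases le_or_gt j n with hjn | hjn
        · exact hRry _ (hn1 j hjn).1 ((le_max_right _ _).trans (hn1 j hjn).2)
        · obtain ⟨k, rfl⟩ := Nat.exists_eq_add_of_lt hjn
          have e : (G t)^[n + k + 1] y = (G t)^[k + 1] z := by
            rw [hz, ← Function.iterate_add_apply, show k + 1 + n = n + k + 1 by omega]
          have := hm1 (k + 1) (by omega)
          rw [e]
          exact hRry _ this.1 ((le_max_right _ _).trans this.2)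
      · rw [Function.iterate_add_apply, ← hz, sub_zero]
        set x := (G t)^[m] z with hx
        have hx0 : x ≠ 0 := (hm1 m le_rfl).1
        have h1 : 1 + (b ^ q)⁻¹ ≤ (q : ℝ) * ‖η t‖ * ‖Wf q C x‖ := by
          have h2 : ‖1 - q * η t * Wf q C x‖ ≤ 1 + (q : ℝ) * ‖η t‖ * ‖Wf q C x‖ := by
            refine (norm_sub_le _ _).trans ?_
            rw [norm_one, norm_mul, hqη]
          rw [hB] at hm2
          linarith
        rw [norm_Wf] at h1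
        have hxp : 0 < ‖x‖ := norm_pos_iff.mpr hx0
        have h3 : (q : ℝ) * ‖η t‖ * ((q : ℝ) * ‖C‖ * ‖x‖ ^ q)⁻¹ = ‖η t‖ / (‖C‖ * ‖x‖ ^ q) := by
          field_simp
        rw [h3, le_div_iff₀ (by positivity), ← hsC] at h1
        have h4 : (b ^ q)⁻¹ * (‖C‖ * ‖x‖ ^ q) < ‖C‖ * ‖s‖ ^ q := by
          have : 0 < ‖C‖ * ‖x‖ ^ q := by positivity
          linarith
        have h5 : ‖x‖ ^ q < (b * ‖s‖) ^ q := by
          rw [mul_pow]
          have h6 : b ^ q * ((b ^ q)⁻¹ * (‖C‖ * ‖x‖ ^ q)) < b ^ q * (‖C‖ * ‖s‖ ^ q) := by gcongr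
          rw [← mul_assoc, mul_inv_cancel₀ (by positivity), one_mul] at h6
          have h7 : ‖C‖ * ‖x‖ ^ q < ‖C‖ * (b ^ q * ‖s‖ ^ q) := by linarith
          exact lt_of_mul_lt_mul_left h7 hC'.le
        exact lt_of_pow_lt_pow_left₀ q hρ.le h5
  · -- the roots are attracting
    obtain ⟨b, hb, hb2, hnr⟩ := near_root h hκ0 hκ1 hd hr
    obtain ⟨v0, hv0, hv01, hroot⟩ := root_near hq hb
    set v1 : ℝ := 1 - κ ^ 2 / 64 with hv1
    have hv1p : v1 < 1 := by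
      have : 0 < κ ^ 2 / 64 := by positivity
      linarith
    obtain ⟨R2, hR2, hst2⟩ := step h (show 0 < κ * v0 / 12 by positivity)
    set R' : ℝ := max R2 Rr with hR'def
    have hR' : 0 < R' := lt_max_of_lt_left hR2
    filter_upwards [hph1, hst2, h.hη, hnr, hd, hsmall 1 one_pos, hsmall (κ / q) (by positivity),
      hsmall ((1 - v1) / (q * R')) (div_pos (by linarith) (by positivity))] with
      t ht1 ht2 ht3 ht4 ht5 ht6 ht8 ht7
    have hηp : 0 < ‖η t‖ := norm_pos_iff.mpr ht3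
    refine ⟨(Polynomial.nthRoots q (-η t / C)).toFinset.image (fun s => (s, b * ‖s‖)), ?_, ?_⟩
    · intro i hi
      obtain ⟨s, hs, rfl⟩ := Finset.mem_image.mp hi
      rw [Multiset.mem_toFinset, Polynomial.mem_nthRoots (by omega)] at hs
      have hs0 : s ≠ 0 := by
        rintro rfl
        rw [zero_pow (by omega)] at hs
        exact (div_ne_zero (neg_ne_zero.mpr ht3) hC) hs.symm
      have hρ : 0 < b * ‖s‖ := mul_pos hb (norm_pos_iff.mpr hs0)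
      obtain ⟨h1, h2⟩ := trap_of (g := G t) (c := s) hρ (x := κ * ‖η t‖ / 4) (by positivity)
        (by nlinarith) (fun y hy => (ht4 s hs y hy).2)
      exact ⟨fun y hy => ⟨(ht4 s hs y hy).1, h1 y hy⟩, h2⟩
    · intro y hy1 hy2 hy3 hy4
      obtain ⟨n, hn1, hn2, hn3, hn4, hn5⟩ := ht1 y hy1 hy2 hy3 hy4
      set z := (G t)^[n] y with hz
      have hre : κ / 4 * (‖η t‖ * ‖Wf q C z‖) ≤ (η t * Wf q C z).re :=
        re_mul_le hκ1 ht5 hn4 hn5 hκ0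
      have hqη : ‖(q : ℂ) * η t‖ = q * ‖η t‖ := by rw [norm_mul, Complex.norm_natCast]
      have hV : ‖1 - q * η t * Wf q C z‖ ≤ v1 := by
        set Ω : ℂ := q * η t * Wf q C z with hΩ
        have hΩn : ‖Ω‖ = (q : ℝ) * ‖η t‖ * ‖Wf q C z‖ := by rw [hΩ, norm_mul, hqη]
        have hΩre : κ / 4 * ‖Ω‖ ≤ Ω.re := by
          have e : Ω.re = q * (η t * Wf q C z).re := by
            rw [hΩ, mul_assoc]
            simp
          rw [e, hΩn]
          have : (q : ℝ) * (κ / 4 * (‖η t‖ * ‖Wf q C z‖)) ≤ q * (η t * Wf q C z).re := by gcongr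
          nlinarith
        rw [← hΩn] at hn2 hn3
        have hv10 : 0 ≤ v1 := by
          rw [hv1]; nlinarith
        refine abs_le_of_sq_le_sq' ?_ hv10 |>.2
        have e1 : ‖1 - Ω‖ ^ 2 = 1 - 2 * Ω.re + ‖Ω‖ ^ 2 := by
          rw [Complex.sq_norm, Complex.sq_norm, Complex.normSq_apply, Complex.normSq_apply]
          simp
          ring
        rw [e1]
        have h5 : ‖Ω‖ ^ 2 ≤ κ / 4 * ‖Ω‖ := by
          rw [sq]; gcongr
        have h6 : κ / 4 * (κ / 8) ≤ κ / 4 * ‖Ω‖ := by gcongr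
        rw [hv1]
        nlinarith [sq_nonneg (κ ^ 2 / 64)]
      obtain ⟨m, hm1, hm2⟩ := phase2B (R := R') hq ht3 hκ0 hκ1 hv0 hv1p
        (fun y hy hy' => ht2 y hy ((le_max_left _ _).trans hy'))
        (by
          rw [hqη]
          have : ((q : ℂ) * η t).re = q * (η t).re := by simp
          rw [this]
          nlinarith)
        (by
          rw [hqη]
          have := ht8.le
          rw [le_div_iff₀ (by positivity)] at this
          linarith)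
        (by
          rw [hqη]
          have := ht7.le
          rw [le_div_iff₀ (by positivity)] at this
          nlinarith) z (hn1 n le_rfl).1 hV
      set x := (G t)^[m] z with hx
      have hx0 : x ≠ 0 := (hm1 m le_rfl).1
      obtain ⟨w, hw1, hw2⟩ := hroot _ hm2
      set V : ℂ := 1 - q * η t * Wf q C x with hVdef
      have h1V : 1 - V ≠ 0 := by
        intro h0
        have : V = 1 := by linear_combination -h0
        rw [this, norm_one] at hm2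
        linarith
      have hw0 : w ≠ 0 := by
        rintro rfl
        rw [zero_sub, norm_neg, norm_one] at hw2
        linarith
      have hxC : C * x ^ q * (1 - V) = -η t := by
        rw [hVdef, Wf]
        have : (q : ℂ) * C * x ^ q ≠ 0 := mul_ne_zero (mul_ne_zero hqC hC) (pow_ne_zero _ hx0)
        field_simp
        ring
      have hs : (x / w) ^ q = -η t / C := by
        rw [div_pow, hw1, ← hxC]
        field_simp
      have hmem : x / w ∈ (Polynomial.nthRoots q (-η t / C)).toFinset := by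
        rw [Multiset.mem_toFinset, Polynomial.mem_nthRoots (by omega)]
        exact hs
      refine ⟨_, Finset.mem_image_of_mem _ hmem, m + n, fun j hj => ?_, ?_⟩
      · rcases le_or_gt j n with hjn | hjn
        · exact hRry _ (hn1 j hjn).1 ((le_max_right _ _).trans (hn1 j hjn).2)
        · obtain ⟨k, rfl⟩ := Nat.exists_eq_add_of_lt hjn
          have e : (G t)^[n + k + 1] y = (G t)^[k + 1] z := by
            rw [hz, ← Function.iterate_add_apply, show k + 1 + n = n + k + 1 by omega]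
          have := hm1 (k + 1) (by omega)
          rw [e]
          exact hRry _ this.1 ((le_max_right _ _).trans this.2)
      · rw [Function.iterate_add_apply, ← hz, ← hx]
        have e : x - x / w = x / w * (w - 1) := by field_simp
        simp only
        rw [e, norm_mul, mul_comm b]
        have : 0 < ‖x / w‖ := norm_pos_iff.mpr (div_ne_zero hx0 hw0)
        gcongr

end Pool.Agent.Helper65.EP
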