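import Pool.Agent.Helper65.EP.Stm4

/-! PACKAGE Y4: almost every direction is transversal at the holes. -/

set_option autoImplicit false

open Topology Filter Metric Set MeasureTheory
open scoped OnePoint

namespace Pool.Agent.Helper65.EP

open Pool.Agent.H790R3.RB

namespace PY4

/-- `v ↦ cr w (hF v p)` -/
noncomputable def L {d : ℕ} (w p : ℂ × ℂ) : CV d →ₗ[ℂ] ℂ where
  toFun v := cr w (hF v p)
  map_add' v v' := by
    simp only [cr, hF, Pi.add_apply, add_mul, Finset.sum_add_distrib]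
    ring
  map_smul' a v := by
    simp only [cr, hF, Pi.smul_apply, smul_eq_mul, mul_assoc, ← Finset.mul_sum, RingHom.id_apply]
    ring

lemma single {d : ℕ} (i : Fin 2) (z : ℂ) : hF (Pi.single (i, 0) 1 : CV d) (z, 1) =
    if i = 0 then (1, 0) else (0, 1) := by
  have h1 : ∀ k : Fin 2, (∑ j : Fin (d + 1), (Pi.single (i, 0) 1 : CV d) (k, j) *
      (z ^ (j : ℕ) * (1 : ℂ) ^ (d - (j : ℕ)))) = if k = i then 1 else 0 := by
    intro k
    rw [Finset.sum_eq_single (0 : Fin (d + 1))]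
    · by_cases h : k = i
      · subst h; simp
      · rw [if_neg h, Pi.single_eq_of_ne, zero_mul]
        intro h'
        exact h (congrArg Prod.fst h')
    · intro j _ hj
      rw [Pi.single_eq_of_ne, zero_mul]
      intro h'
      exact hj (congrArg Prod.snd h')
    · intro h; exact absurd (Finset.mem_univ _) h
  unfold hF
  simp only [h1]
  fin_cases i <;> simp

lemma ne {d : ℕ} {w : ℂ × ℂ} (hw : w ≠ 0) (z : ℂ) : ∃ v : CV d, L w (z, 1) v ≠ 0 := by
  by_cases h : w.1 = 0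
  · have h2 : w.2 ≠ 0 := fun h2 => hw (Prod.ext h h2)
    refine ⟨Pi.single (0, 0) 1, ?_⟩
    show cr w (hF _ (z, 1)) ≠ 0
    rw [single]
    simpa [cr] using h2
  · refine ⟨Pi.single (1, 0) 1, ?_⟩
    show cr w (hF _ (z, 1)) ≠ 0
    rw [single]
    simpa [cr] using h

lemma ae {d : ℕ} {w : ℂ × ℂ} (hw : w ≠ 0) (z : ℂ) : ∀ᵐ v : CV d, cr w (hF v (z, 1)) ≠ 0 := by
  have h1 : (LinearMap.ker ((L (d := d) w (z, 1)).restrictScalars ℝ) : Submodule ℝ (CV d)) ≠ ⊤ := by
    intro h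
    obtain ⟨v, hv⟩ := ne (d := d) hw z
    have : v ∈ (LinearMap.ker ((L (d := d) w (z, 1)).restrictScalars ℝ) : Submodule ℝ (CV d)) := by
      rw [h]; trivial
    exact hv (LinearMap.mem_ker.1 this)
  have h2 := Measure.addHaar_submodule (volume : Measure (CV d)) _ h1
  rw [ae_iff]
  convert h2 using 2
  ext v
  simp only [not_not, Set.mem_ofPred_eq, SetLike.mem_coe, LinearMap.mem_ker]
  rfl

end PY4

/-- PACKAGE Y4 -/
theorem genV : S_genV := by
  intro d e x y Hf hF' hfin h10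
  have h1 : ∀ᵐ v : CV d, ∀ z ∈ hfin.toFinset, cr (hF y (z, 1)) (hF v (z, 1)) ≠ 0 := by
    rw [Filter.eventually_all_finset]
    intro z _
    refine PY4.ae ?_ z
    intro h
    have := congrArg Prod.snd (hF'.nd _ h)
    simp at this
  filter_upwards [h1] with v hv c hc hc0
  have hc2 : c.2 ≠ 0 := by
    intro h2
    have hc1 : c.1 ≠ 0 := fun h1 => hc (Prod.ext h1 h2)
    have e1 : c = c.1 • ((1, 0) : ℂ × ℂ) := Prod.ext (by simp) (by simp [h2])
    rw [e1, hF'.hom] at hc0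
    exact mul_ne_zero (pow_ne_zero _ hc1) h10 hc0
  have e1 : c = c.2 • ((c.1 / c.2, 1) : ℂ × ℂ) :=
    Prod.ext (by simp [mul_div_cancel₀ _ hc2]) (by simp)
  have hz : Hf (c.1 / c.2, 1) = 0 := by
    rw [e1, hF'.hom] at hc0
    exact (mul_eq_zero.1 hc0).resolve_left (pow_ne_zero _ hc2)
  have h2 := hv (c.1 / c.2) (by rw [Set.Finite.mem_toFinset]; exact hz)
  have e2 : cr (hF y c) (hF v c) =
      c.2 ^ e * c.2 ^ d * cr (hF y (c.1 / c.2, 1)) (hF v (c.1 / c.2, 1)) := by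
    have e3 : hF y c = c.2 ^ e • hF y (c.1 / c.2, 1) := by
      conv_lhs => rw [e1, hF_smul]
    have e4 : hF v c = c.2 ^ d • hF v (c.1 / c.2, 1) := by
      conv_lhs => rw [e1, hF_smul]
    rw [e3, e4]
    simp only [cr, Prod.smul_fst, Prod.smul_snd, smul_eq_mul]
    ring
  rw [e2]
  exact mul_ne_zero (mul_ne_zero (pow_ne_zero _ hc2) (pow_ne_zero _ hc2)) h2

end Pool.Agent.Helper65.EP
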