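import Pool.Agent.Helper65.EP.Stm4
import Pool.Agent.Helper65.EU.Strong

/-! PACKAGES Y5 and Y6: critical points off the holes, iterates of the degenerate map. -/

set_option autoImplicit false

open Topology Filter Metric Set MeasureTheory
open scoped OnePoint

namespace Pool.Agent.Helper65.EP

open Pool.Agent.H790R3.RB

/-- PACKAGE Y5 -/
theorem critV : S_critV := by
  intro d e x y Hf z hF' hz hw
  have he := hF'.he
  have hd := hF'.hd
  have hd0 : (d : ℂ) ≠ 0 := by exact_mod_cast (by omega : d ≠ 0)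
  -- the polynomials of `x` are `η` times those of `y`
  have h1 : ∀ w : ℂ, (pol x 0).eval w = Hf (w, 1) * (pol y 0).eval w ∧
      (pol x 1).eval w = Hf (w, 1) * (pol y 1).eval w := by
    intro w
    have := hF'.fac (w, 1)
    rw [PQ.hF_one, PQ.hF_one] at this
    have a1 := congrArg Prod.fst this
    have a2 := congrArg Prod.snd this
    simp only [Prod.smul_mk, smul_eq_mul] at a1 a2
    exact ⟨a1, a2⟩
  have hη : DifferentiableAt ℂ (fun w : ℂ => Hf (w, 1)) z := by
    have h2 : DifferentiableAt ℂ Hf (z, 1) := (hF'.dif.differentiable (by norm_num)).differentiableAt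
    exact h2.comp z (differentiableAt_id.prodMk (differentiableAt_const _))
  obtain ⟨η', hη'⟩ : ∃ η' : ℂ, HasDerivAt (fun w : ℂ => Hf (w, 1)) η' z := ⟨_, hη.hasDerivAt⟩
  have hder : ∀ i : Fin 2, (∀ w : ℂ, (pol x i).eval w = Hf (w, 1) * (pol y i).eval w) →
      (Polynomial.derivative (pol x i)).eval z = η' * (pol y i).eval z +
        Hf (z, 1) * (Polynomial.derivative (pol y i)).eval z := by
    intro i hi
    have b1 := (pol x i).hasDerivAt z
    have b2 := hη'.mul ((pol y i).hasDerivAt z)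
    have b3 : (fun w : ℂ => (pol x i).eval w) = (fun w : ℂ => Hf (w, 1)) * (fun w => (pol y i).eval w) := by
      funext w
      exact hi w
    rw [b3] at b1
    exact b1.unique b2
  have hW : (Polynomial.derivative (pol y 0)).eval z * (pol y 1).eval z -
      (pol y 0).eval z * (Polynomial.derivative (pol y 1)).eval z = 0 := by
    rw [Pool.Agent.W364.NM.wr_eval (by omega)] at hw
    have h3 := (mul_eq_zero.1 hw).resolve_left hd0
    rw [hder 0 fun w => (h1 w).1, hder 1 fun w => (h1 w).2, (h1 z).1, (h1 z).2] at h3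
    have h4 : Hf (z, 1) ^ 2 * ((Polynomial.derivative (pol y 0)).eval z * (pol y 1).eval z -
      (pol y 0).eval z * (Polynomial.derivative (pol y 1)).eval z) = 0 := by
      linear_combination h3
    exact (mul_eq_zero.1 h4).resolve_left (pow_ne_zero 2 hz)
  rcases Nat.lt_or_ge e 2 with he2 | he2
  · -- degree one
    exfalso
    obtain rfl : e = 1 := by omega
    have hp : ∀ i : Fin 2, pol y i = Polynomial.C (y (i, 0)) +
        Polynomial.C (y (i, 1)) * Polynomial.X := by
      intro i
      unfold pol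
      rw [Fin.sum_univ_two]
      simp [Polynomial.C_mul_X_eq_monomial]
    rw [hp 0, hp 1] at hW
    simp only [Polynomial.derivative_add, Polynomial.derivative_C, Polynomial.derivative_mul,
      Polynomial.derivative_X, Polynomial.eval_add, Polynomial.eval_mul, Polynomial.eval_C,
      Polynomial.eval_X, Polynomial.eval_zero, zero_mul, mul_one, zero_add,
      Polynomial.eval_one] at hW
    have hW' : y (0, 1) * y (1, 0) - y (0, 0) * y (1, 1) = 0 := by linear_combination hW
    have hF1 : ∀ p : ℂ × ℂ, hF y p = (y (0, 0) * p.2 + y (0, 1) * p.1,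
        y (1, 0) * p.2 + y (1, 1) * p.1) := by
      intro p
      unfold hF
      rw [Fin.sum_univ_two, Fin.sum_univ_two]
      simp
    have hz1 : ((-y (0, 0), y (0, 1)) : ℂ × ℂ) = 0 := by
      apply hF'.nd
      rw [hF1]
      refine Prod.ext ?_ ?_
      · show y (0, 0) * y (0, 1) + y (0, 1) * -y (0, 0) = 0
        ring
      · show y (1, 0) * y (0, 1) + y (1, 1) * -y (0, 0) = 0
        linear_combination hW'
    have hz2 : ((-y (1, 0), y (1, 1)) : ℂ × ℂ) = 0 := by
      apply hF'.nd
      rw [hF1]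
      refine Prod.ext ?_ ?_
      · show y (0, 0) * y (1, 1) + y (0, 1) * -y (1, 0) = 0
        linear_combination -hW'
      · show y (1, 0) * y (1, 1) + y (1, 1) * -y (1, 0) = 0
        ring
    have c1 : y (0, 0) = 0 := neg_eq_zero.1 (congrArg Prod.fst hz1)
    have c2 : y (0, 1) = 0 := congrArg Prod.snd hz1
    have c3 : y (1, 0) = 0 := neg_eq_zero.1 (congrArg Prod.fst hz2)
    have c4 : y (1, 1) = 0 := congrArg Prod.snd hz2
    have := hF'.nd (1, 0) (by rw [hF1, c1, c2, c3, c4]; simp)
    simp at this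
  · refine Pool.Agent.Helper65.EU.not_inj he2 hF'.nd ?_
    rw [Pool.Agent.W364.NM.wr_eval he2, hW, mul_zero]

/-- PACKAGE Y6 -/
theorem transV : S_transV := by
  intro d e x y Hf hF'
  have key : ∀ (c : ℂ × ℂ) (k : ℕ), (∀ j < k, Hf ((hF y)^[j] c) ≠ 0) →
      ∃ s : ℂ, s ≠ 0 ∧ (hF x)^[k] c = s • (hF y)^[k] c := by
    intro c k
    induction k with
    | zero => intro _; exact ⟨1, one_ne_zero, by simp⟩
    | succ k ih =>
      intro h
      obtain ⟨s, hs, h1⟩ := ih fun j hj => h j (by omega)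
      refine ⟨s ^ d * Hf ((hF y)^[k] c), mul_ne_zero (pow_ne_zero _ hs) (h k (by omega)), ?_⟩
      rw [Function.iterate_succ_apply', Function.iterate_succ_apply', h1, hF_smul, hF'.fac,
        smul_smul]
  have hcH : Continuous Hf := hF'.dif.continuous
  have hcy : Continuous (hF y) := by
    unfold hF
    fun_prop
  have hev : ∀ (a : ℂ) (N : ℕ), (∀ j < N, Hf ((hF y)^[j] (a, 1)) ≠ 0) →
      ∀ᶠ z : ℂ in 𝓝 a, Fa N x z = Fa N y z := by
    intro a N h
    have h1 : ∀ᶠ z : ℂ in 𝓝 a, ∀ j < N, Hf ((hF y)^[j] (z, 1)) ≠ 0 := by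
      have h2 : ∀ j ∈ Finset.range N, ∀ᶠ z : ℂ in 𝓝 a, Hf ((hF y)^[j] (z, 1)) ≠ 0 := by
        intro j hj
        have hc : Continuous fun z : ℂ => Hf ((hF y)^[j] (z, 1)) :=
          hcH.comp ((hcy.iterate j).comp (by fun_prop))
        exact hc.continuousAt.eventually_ne (h j (Finset.mem_range.1 hj))
      filter_upwards [(Filter.eventually_all_finset (Finset.range N)).2 h2] with z hz j hj
      exact hz j (Finset.mem_range.2 hj)
    filter_upwards [h1] with z hz
    obtain ⟨s, hs, h2⟩ := key (z, 1) N hz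
    unfold Fa
    rw [h2, Prod.smul_fst, Prod.smul_snd, smul_eq_mul, smul_eq_mul, mul_div_mul_left _ _ hs]
  have hne : ∀ (a : ℂ) (N : ℕ), (∀ j < N, Hf ((hF y)^[j] (a, 1)) ≠ 0) →
      ((hF y)^[N] (a, 1)).2 ≠ 0 → ((hF x)^[N] (a, 1)).2 ≠ 0 := by
    intro a N h h0
    obtain ⟨s, hs, h2⟩ := key (a, 1) N h
    rw [h2, Prod.smul_snd, smul_eq_mul]
    exact mul_ne_zero hs h0
  refine ⟨key, ?_, ?_⟩
  · rintro a N - h ⟨h1, h2, h3⟩
    have he := hev a N h
    refine ⟨hne a N h h1, ?_, ?_⟩
    · rw [he.self_of_nhds]; exact h2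
    · rw [Filter.EventuallyEq.deriv_eq he]; exact h3
  · rintro a p q hp hq h ⟨h1, h2, h3, C, hC, h4⟩
    have hpq : p ≤ p * q := Nat.le_mul_of_pos_right p hq
    have h' : ∀ j < p, Hf ((hF y)^[j] (a, 1)) ≠ 0 := fun j hj => h j (by omega)
    have he := hev a p h'
    have he2 := hev a (p * q) h
    refine ⟨hne a p h' h1, ?_, ?_, C, hC, ?_⟩
    · rw [he.self_of_nhds]; exact h2
    · rw [Filter.EventuallyEq.deriv_eq he]; exact h3
    · refine h4.congr' ?_
      filter_upwards [he2.filter_mono nhdsWithin_le_nhds] with z hz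
      rw [hz]

end Pool.Agent.Helper65.EP
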